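import Mathlib
import Pool.Agent.H87.Fpc.Pres3

/-!
# A presentation of a quotient of the absolute Galois group of `F_q(X)`, with a Frobenius generator

Let `Φ` be a class of finite simple groups, closed under isomorphism, and `C` the class `InC Φ` of all
finite groups all of whose composition factors belong to `Φ`. Let all groups in `Φ` satisfy `FactorL p`
(file `Pool/Agent/K7/H53/LD/Defs.lean` of the library; for example, let `Φ` be any set of alternating
groups `A_n`, `n ≥ 5`, `n ≠ 6`; there is no condition on `p` then).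

Let `K = F_q(X)`, `A` an algebraic closure of `F_q` and `L = A(X)`. Let `M` be the maximal pro-`C`
extension of `L`: the union of all finite Galois extensions of `L` (in an algebraic closure) with group
in `C`. Then the profinite group `Gal(M/K)` has the presentation

  `⟨ t, x 0, x 1, x 2, ... | the closed normal subgroup generated by the x i is a pro-C group ⟩`

(in the category of profinite groups, the sequence `x i` converging to `1`), where `t` is an extension
of the Frobenius automorphism `a ↦ a ^ q` of `A` and the `x i` generate `Gal(M/L)` as a closed normal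
subgroup. The precise meaning is given in the definition `IsPresented`. In particular the group is
isomorphic for all `q`, even of different characteristics, if `Φ` is as above for both of them.

The same is proved for `K` a countable Hilbertian field of characteristic `p` and every Galois extension
`L/K` whose group is free profinite on one generator (isomorphic to the profinite completion of `ℤ`).
-/

set_option autoImplicit false

open Pool.Agent.H87.Fpc (InC IsProC IsMaxProC IsoInv IsConst)
open Pool.Agent.K7.H53.LD (FactorL)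

namespace Pool.Agent.Results.MP_7f581e_nt.FrobeniusPresentation

/-- `K` is Hilbertian (in the form used in frozen statement S03429). -/
def Hilbertian (K : Type) [Field K] : Prop :=
  ∀ (f : Polynomial (Polynomial K)), f.Monic → Irreducible f →
    (f.map (algebraMap (Polynomial K) (FractionRing (Polynomial K)))).Separable →
    ∀ g : Polynomial K, g ≠ 0 →
      ∃ a : K, g.eval a ≠ 0 ∧ Irreducible (f.map (Polynomial.evalRingHom a))

/-- `K` is the field of rational functions in one variable over a finite field. -/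
def IsRational (K : Type) [Field K] : Prop :=
  ∃ (κ : Type) (_ : Field κ) (_ : Finite κ) (_ : Algebra (Polynomial κ) K),
    IsFractionRing (Polynomial κ) K

/-- The fields `K` of the theorem: `K` is a field of characteristic `p`, and `K = F_q(X)` or `K` is
a countable Hilbertian field. -/
def FieldIn (p : ℕ) (K : Type) [Field K] : Prop :=
  CharP K p ∧ (IsRational K ∨ (Countable K ∧ Hilbertian K))

/-- The classes `Φ` of the theorem: `Φ` is closed under isomorphism, and all groups in `Φ` satisfy
`FactorL p` (so they are finite simple groups). -/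
def ClassIn (p : ℕ) [Fact p.Prime] (Φ : ∀ (T : Type) [Group T], Prop) : Prop :=
  IsoInv Φ ∧ ∀ (T : Type) [Group T], Φ T → FactorL p T

/-- The automorphism `σ` of `M` extends the automorphism `τ` of `L`. -/
def Extends {K L M : Type} [Field K] [Field L] [Field M] [Algebra K L] [Algebra K M]
    [Algebra L M] (σ : M ≃ₐ[K] M) (τ : L ≃ₐ[K] L) : Prop :=
  ∀ x : L, σ (algebraMap L M x) = algebraMap L M (τ x)

/-- The profinite group `P` is free on the single generator `τ`: the powers of `τ` are dense, and for
every element `h` of a finite group `H` there is a homomorphism `P → H` with an open kernel which maps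
`τ` to `h`. -/
def IsFreeOn {P : Type} [Group P] [TopologicalSpace P] (τ : P) : Prop :=
  Dense ((Subgroup.closure {τ} : Subgroup P) : Set P) ∧
  ∀ (H : Type) [Group H] [Finite H] (h : H), ∃ φ : P →* H, IsOpen (φ.ker : Set P) ∧ φ τ = h

/-- The topological group `G` has the generators `t` and `x 0, x 1, x 2, ...` (a sequence which
converges to `1`), with the only relation that the closed normal subgroup generated by the `x i` is a
pro-`C` group:
* `t` and the `x i` generate a dense subgroup,
* the finite quotients of `G` satisfy the relation,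
* if `H` is a finite group generated by `h` and the `y i`, almost all `y i` are equal to `1` and the
  normal subgroup generated by the `y i` belongs to `C`, then there is exactly one homomorphism
  `φ : G → H` with an open kernel, `φ t = h` and `φ (x i) = y i` for all `i`. -/
def IsPresented (C : ∀ (G : Type) [Group G], Prop) {G : Type} [Group G] [TopologicalSpace G]
    (t : G) (x : ℕ → G) : Prop :=
  Filter.Tendsto x Filter.atTop (nhds 1) ∧
  Dense ((Subgroup.closure ({t} ∪ Set.range x) : Subgroup G) : Set G) ∧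
  (∀ (U : Subgroup G) [U.Normal], IsOpen (U : Set G) →
    C ((Subgroup.normalClosure (Set.range x)).map (QuotientGroup.mk' U))) ∧
  ∀ (H : Type) [Group H] [Finite H] (h : H) (y : ℕ → H), {i | y i ≠ 1}.Finite →
    Subgroup.closure ({h} ∪ Set.range y) = ⊤ → C (Subgroup.normalClosure (Set.range y)) →
      ∃! φ : G →* H, IsOpen (φ.ker : Set G) ∧ φ t = h ∧ ∀ i, φ (x i) = y i

/-- The sequence `x` generates the subgroup `Gal(M/L)` of `Gal(M/K)` as a closed normal subgroup. -/
def NormallyGenerates (K L M : Type) [Field K] [Field L] [Field M] [Algebra K L] [Algebra K M]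
    [Algebra L M] (x : ℕ → (M ≃ₐ[K] M)) : Prop :=
  ∀ σ : M ≃ₐ[K] M, σ ∈ (Subgroup.normalClosure (Set.range x)).topologicalClosure ↔
    Extends σ (1 : L ≃ₐ[K] L)

theorem countable_spec {p : ℕ} {K : Type} [Field K] (h : FieldIn p K) :
    Countable K ∧ Pool.Agent.TH377.IG.SpecProp K := by
  obtain ⟨-, h | ⟨h1, h2⟩⟩ := h
  · obtain ⟨κ, i1, i2, i3, i4⟩ := h
    exact ⟨Pool.Agent.H87.Fpc.countable_of_frac κ K,
      Pool.Agent.H87.Fpc.spec_HP K (Pool.Agent.W200.IG.hp_base (κ := κ) K)⟩
  · exact ⟨h1, Pool.Agent.TH377.IG.spec_hilb h2⟩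

theorem good_of {p : ℕ} [Fact p.Prime] {Φ : ∀ (T : Type) [Group T], Prop} (h : ClassIn p Φ) :
    Pool.Agent.H87.Fpc.Good (InC Φ) :=
  Pool.Agent.H87.Fpc.good_inC h.1 (Pool.Agent.H87.Fpc.simple_of_factor h.2)

theorem presented_iff {C : ∀ (G : Type) [Group G], Prop} {G : Type} [Group G]
    [TopologicalSpace G] {t : G} {x : ℕ → G} :
    IsPresented C t x ↔ Pool.Agent.H87.Fpc.IsPresented C (fun _ : Fin 1 => t) x := by
  constructor
  · rintro ⟨h1, h2, h3, h4⟩
    refine ⟨h1, ?_, h3, ?_⟩
    · rw [Set.range_const]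
      exact h2
    · intro H _ _ h y hy hgen hC
      have h5 : h = fun _ => h 0 := funext fun j => congrArg h (Subsingleton.elim j 0)
      have h6 : Set.range h = {h 0} := by
        rw [h5, Set.range_const]
      rw [h6] at hgen
      obtain ⟨φ, ⟨hφ1, hφ2, hφ3⟩, hφ⟩ := h4 H (h 0) y hy hgen hC
      refine ⟨φ, ⟨hφ1, fun j => ?_, hφ3⟩, ?_⟩
      · rw [hφ2, Subsingleton.elim j 0]
      · rintro ψ ⟨hψ1, hψ2, hψ3⟩
        exact hφ ψ ⟨hψ1, hψ2 0, hψ3⟩
  · rintro ⟨h1, h2, h3, h4⟩
    refine ⟨h1, ?_, h3, ?_⟩
    · rwa [Set.range_const] at h2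
    · intro H _ _ h y hy hgen hC
      obtain ⟨φ, ⟨hφ1, hφ2, hφ3⟩, hφ⟩ := h4 H (fun _ => h) y hy (by
        rw [Set.range_const]
        exact hgen) hC
      refine ⟨φ, ⟨hφ1, hφ2 0, hφ3⟩, ?_⟩
      rintro ψ ⟨hψ1, hψ2, hψ3⟩
      exact hφ ψ ⟨hψ1, fun _ => hψ2, hψ3⟩

theorem free_iff {P : Type} [Group P] [TopologicalSpace P] {τ : P} :
    IsFreeOn τ ↔ Pool.Agent.H87.Fpc.IsFreeProfinite (fun _ : Fin 1 => τ) := by
  constructor
  · rintro ⟨h1, h2⟩
    refine ⟨?_, ?_⟩
    · rw [Set.range_const]
      exact h1
    · intro H _ _ h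
      obtain ⟨φ, h3, h4⟩ := h2 H (h 0)
      refine ⟨φ, h3, fun j => ?_⟩
      rw [h4, Subsingleton.elim j 0]
  · rintro ⟨h1, h2⟩
    refine ⟨?_, ?_⟩
    · rwa [Set.range_const] at h1
    · intro H _ _ h
      obtain ⟨φ, h3, h4⟩ := h2 H (fun _ => h)
      exact ⟨φ, h3, h4 0⟩

theorem main {p : ℕ} [Fact p.Prime] {Φ : ∀ (T : Type) [Group T], Prop} (hΦ : ClassIn p Φ)
    {K L M : Type} [Field K] [Field L] [Field M] [Algebra K L] [Algebra K M] [Algebra L M]
    [IsScalarTower K L M] [IsGalois K L] (hK : FieldIn p K) (hM : IsMaxProC (InC Φ) L M)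
    {τ : L ≃ₐ[K] L} (hτ : IsFreeOn τ) :
    ∃ (t : M ≃ₐ[K] M) (x : ℕ → (M ≃ₐ[K] M)), IsPresented (InC Φ) t x ∧ Extends t τ ∧
      NormallyGenerates K L M x := by
  have hC := good_of hΦ
  haveI := hK.1
  obtain ⟨h1, h2⟩ := countable_spec hK
  haveI hG : IsGalois K M := Pool.Agent.H87.Fpc.galois_of_max hC hM
  haveI : T2Space (M ≃ₐ[K] M) := krullTopology_t2
  haveI : T2Space (L ≃ₐ[K] L) := krullTopology_t2
  have hsmall : Pool.Agent.H87.Fpc.IsSmall (L ≃ₐ[K] L) :=
    Pool.Agent.H87.Fpc.small_of_fg (L ≃ₐ[K] L) {τ} (Set.finite_singleton τ) hτ.1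
  have hF := Pool.Agent.H87.Fpc.pcR_gal hC hM (hsmall.smallFor (InC Φ))
    (fun N E _ _ _ _ _ α hE hα hk => Pool.Agent.H87.Fpc.solR hΦ.2 K h2 N E α hE hα hk)
    (ContinuousMulEquiv.refl (L ≃ₐ[K] L))
  obtain ⟨t, x, hP, ht, hx⟩ := Pool.Agent.H87.Fpc.pres_of_pc hC hF (free_iff.1 hτ)
  have hres : ∀ (σ : M ≃ₐ[K] M) (ρ : L ≃ₐ[K] L), σ.restrictNormal L = ρ ↔ Extends σ ρ := by
    intro σ ρ
    constructor
    · rintro rfl y
      exact (σ.restrictNormal_commutes L y).symm
    · intro h
      apply AlgEquiv.ext
      intro y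
      apply (algebraMap L M).injective
      rw [AlgEquiv.restrictNormal_commutes]
      exact h y
  refine ⟨t 0, x, ?_, ?_, ?_⟩
  · rw [presented_iff]
    have h3 : t = fun _ => t 0 := funext fun j => congrArg t (Subsingleton.elim j 0)
    rw [← h3]
    exact hP
  · rw [← hres]
    exact ht 0
  · intro σ
    rw [hx, ← hres]
    rfl

/-- **A presentation with a Frobenius generator.**
1. The presentation determines a profinite group: if the profinite groups `G`, `G'` are presented by
   `t`, `x` and `t'`, `x'`, then there is an isomorphism `G → G'` of topological groups which maps `t`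
   to `t'` and `x i` to `x' i`.
2. Let `K` be a field of characteristic `p`, countable Hilbertian or `F_q(X)`, `L/K` a Galois extension
   whose group is free profinite on one generator `τ`, and `M` a maximal pro-`C` extension of `L`. Then
   `Gal(M/K)` has generators `t`, `x 0, x 1, ...` as in the definition `IsPresented`, where `t` extends
   `τ` and the `x i` generate `Gal(M/L)` as a closed normal subgroup.
3. Let `κ` be a finite field of characteristic `p`, `A` an algebraic closure of `κ`, `K = κ(X)`,
   `L = A(X)`, and `M` a maximal pro-`C` extension of `L`. Then `L/K` is a Galois extension, and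
   `Gal(M/K)` has generators as above, where `t (a) = a ^ q` for all `a` in `A`, `q` the order
   of `κ`. -/
theorem result :
    (∀ (C : ∀ (G : Type) [Group G], Prop) (G G' : Type) [Group G] [Group G']
      [TopologicalSpace G] [TopologicalSpace G'] [IsTopologicalGroup G] [IsTopologicalGroup G']
      [CompactSpace G] [CompactSpace G'] [T2Space G] [T2Space G'] [TotallyDisconnectedSpace G]
      [TotallyDisconnectedSpace G'] (t : G) (x : ℕ → G) (t' : G') (x' : ℕ → G'),
      IsPresented C t x → IsPresented C t' x' →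
        ∃ Ψ : G ≃ₜ* G', Ψ t = t' ∧ ∀ i, Ψ (x i) = x' i) ∧
    ∀ (p : ℕ) [Fact p.Prime] (Φ : ∀ (T : Type) [Group T], Prop), ClassIn p Φ →
      (∀ (K L M : Type) [Field K] [Field L] [Field M] [Algebra K L] [Algebra K M] [Algebra L M]
        [IsScalarTower K L M] [IsGalois K L], FieldIn p K → IsMaxProC (InC Φ) L M →
        ∀ τ : L ≃ₐ[K] L, IsFreeOn τ →
          ∃ (t : M ≃ₐ[K] M) (x : ℕ → (M ≃ₐ[K] M)), IsPresented (InC Φ) t x ∧ Extends t τ ∧
            NormallyGenerates K L M x) ∧
      ∀ (κ A K L M : Type) [Field κ] [Finite κ] [CharP κ p] [Field A] [Algebra κ A]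
        [IsAlgClosure κ A] [Field K] [Field L] [Field M] [Algebra (Polynomial κ) K]
        [Algebra (Polynomial A) L] [Algebra K L] [Algebra K M] [Algebra L M]
        [IsScalarTower K L M], IsConst κ A K L → IsMaxProC (InC Φ) L M →
        IsGalois K L ∧ ∃ (t : M ≃ₐ[K] M) (x : ℕ → (M ≃ₐ[K] M)), IsPresented (InC Φ) t x ∧
          (∀ a : A, t (algebraMap L M (algebraMap (Polynomial A) L (Polynomial.C a))) =
            algebraMap L M (algebraMap (Polynomial A) L (Polynomial.C (a ^ Nat.card κ)))) ∧
          NormallyGenerates K L M x := by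
  refine ⟨?_, ?_⟩
  · intro C G G' _ _ _ _ _ _ _ _ _ _ _ _ t x t' x' h h'
    obtain ⟨Ψ, h1, h2⟩ := Pool.Agent.H87.Fpc.exists_iso_pres (presented_iff.1 h)
      (presented_iff.1 h')
    exact ⟨Ψ, h1 0, h2⟩
  · intro p _ Φ hΦ
    refine ⟨?_, ?_⟩
    · intro K L M _ _ _ _ _ _ _ _ hK hM τ hτ
      exact main hΦ hK hM hτ
    · intro κ A K L M _ _ _ _ _ _ _ _ _ _ _ _ _ _ _ hc hM
      obtain ⟨h1, ⟨σ, hσ⟩, h2⟩ := Pool.Agent.H87.Fpc.free_rational hc
      refine ⟨h1, ?_⟩
      haveI := hc.1
      have hK : FieldIn p K := by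
        refine ⟨?_, Or.inl ⟨κ, inferInstance, inferInstance, inferInstance, hc.1⟩⟩
        haveI : CharP (Polynomial κ) p := inferInstance
        exact charP_of_injective_algebraMap (IsFractionRing.injective (Polynomial κ) K) p
      obtain ⟨t, x, h3, h4, h5⟩ := main hΦ hK hM (free_iff.2 (h2 σ hσ))
      refine ⟨t, x, h3, fun a => ?_, h5⟩
      rw [h4, hσ]

end Pool.Agent.Results.MP_7f581e_nt.FrobeniusPresentation
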