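import Mathlib
import Pool.Agent.H87.Fpc.RelMain

/-!
# Isomorphisms of Galois groups over `F_p(X)` and `F_q(X)` lift to maximal pro-`C` extensions

Let `Φ` be a class of finite simple groups, closed under isomorphism, and `C` the class `InC Φ` of all
finite groups all of whose composition factors belong to `Φ`. Let `K`, `K'` be fields of characteristics
`p`, `p'` (which may be different), each of them a countable Hilbertian field or `F_q(X)`, and let all
groups in `Φ` satisfy `FactorL p` and `FactorL p'` (file `Pool/Agent/K7/H53/LD/Defs.lean` of the library;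
for example, let `Φ` be any set of alternating groups `A_n`, `n ≥ 5`, `n ≠ 6`; there is no condition on
`p`, `p'` then). Let `L/K` and `L'/K'` be Galois extensions and `φ : Gal(L/K) → Gal(L'/K')` an
isomorphism of topological groups. Suppose that for every open normal subgroup `V` of `Gal(L/K)` there
are only finitely many open normal subgroups `U ≤ V` of a given index with `V / U` in `C`. This holds if
* `Gal(L/K)` is finite, or topologically finitely generated (for instance, if `L` is the extension of
  `F_q(X)` generated by all roots of unity), or has only finitely many open subgroups of each index, or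
* `Gal(L/K)` is prosolvable and no group in `Φ` is commutative (for instance, if `L` is the maximal
  abelian or the maximal prosolvable extension of `K`, or `L = K`).

Let `M` and `M'` be the maximal pro-`C` extensions of `L` and `L'`. Then `M/K` and `M'/K'` are Galois
extensions, and `φ` lifts to an isomorphism `Gal(M/K) → Gal(M'/K')` of topological groups. In
particular it induces an isomorphism of the largest pro-`C` quotients `Gal(M/L)`, `Gal(M'/L')` of the
absolute Galois groups of `L` and `L'`.

The proof is a back and forth construction of fibre products over `Gal(L/K)`. It uses that embedding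
problems over `K` with kernels in `C` have proper solutions (theorem `LieTypeFactors` of the library).
The main point is that a solution can be found which is also proper over `L`.
-/

set_option autoImplicit false

open Pool.Agent.H87.Fpc (InC IsProC IsMaxProC IsoInv IsSmall IsSmallFor)
open Pool.Agent.K7.H53.LD (FactorL)

namespace Pool.Agent.Results.MP_7f581e_nt.LiftIsomorphisms

/-- `K` is Hilbertian (in the form used in frozen statement S03429). -/
def Hilbertian (K : Type) [Field K] : Prop :=
  ∀ (f : Polynomial (Polynomial K)), f.Monic → Irreducible f →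
    (f.map (algebraMap (Polynomial K) (FractionRing (Polynomial K)))).Separable →
    ∀ g : Polynomial K, g ≠ 0 →
      ∃ a : K, g.eval a ≠ 0 ∧ Irreducible (f.map (Polynomial.evalRingHom a))

/-- `K` is the field of rational functions in one variable over a finite field. -/
def IsRational (K : Type) [Field K] : Prop :=
  ∃ (κ : Type) (_ : Field κ) (_ : Finite κ) (_ : Algebra (Polynomial κ) K),
    IsFractionRing (Polynomial κ) K

/-- The fields `K` of the theorem: `K` is a field of characteristic `p`, and `K = F_q(X)` or `K` is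
a countable Hilbertian field. -/
def FieldIn (p : ℕ) (K : Type) [Field K] : Prop :=
  CharP K p ∧ (IsRational K ∨ (Countable K ∧ Hilbertian K))

/-- The classes `Φ` of the theorem: `Φ` is closed under isomorphism, and all groups in `Φ` satisfy
`FactorL p` (so they are finite simple groups). -/
def ClassIn (p : ℕ) [Fact p.Prime] (Φ : ∀ (T : Type) [Group T], Prop) : Prop :=
  IsoInv Φ ∧ ∀ (T : Type) [Group T], Φ T → FactorL p T

/-- The automorphism `σ` of `M` extends the automorphism `τ` of `L`. -/
def Extends {K L M : Type} [Field K] [Field L] [Field M] [Algebra K L] [Algebra K M]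
    [Algebra L M] (σ : M ≃ₐ[K] M) (τ : L ≃ₐ[K] L) : Prop :=
  ∀ x : L, σ (algebraMap L M x) = algebraMap L M (τ x)

/-- The isomorphism `φ` of `Gal(L/K)` and `Gal(L'/K')` lifts to an isomorphism of the topological
groups `Gal(M/K)` and `Gal(M'/K')`. -/
def Lifts {K L K' L' : Type} (M M' : Type) [Field K] [Field L] [Field M] [Algebra K L]
    [Algebra K M] [Algebra L M] [Field K'] [Field L'] [Field M'] [Algebra K' L'] [Algebra K' M']
    [Algebra L' M'] (φ : (L ≃ₐ[K] L) ≃ₜ* (L' ≃ₐ[K'] L')) : Prop :=
  ∃ Ψ : (M ≃ₐ[K] M) ≃ₜ* (M' ≃ₐ[K'] M'), ∀ (σ : M ≃ₐ[K] M) (τ : L ≃ₐ[K] L),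
    Extends σ τ → Extends (Ψ σ) (φ τ)

theorem countable_spec {p : ℕ} {K : Type} [Field K] (h : FieldIn p K) :
    Countable K ∧ Pool.Agent.TH377.IG.SpecProp K := by
  obtain ⟨-, h | ⟨h1, h2⟩⟩ := h
  · obtain ⟨κ, i1, i2, i3, i4⟩ := h
    exact ⟨Pool.Agent.H87.Fpc.countable_of_frac κ K,
      Pool.Agent.H87.Fpc.spec_HP K (Pool.Agent.W200.IG.hp_base (κ := κ) K)⟩
  · exact ⟨h1, Pool.Agent.TH377.IG.spec_hilb h2⟩

theorem good_of {p : ℕ} [Fact p.Prime] {Φ : ∀ (T : Type) [Group T], Prop} (h : ClassIn p Φ) :
    Pool.Agent.H87.Fpc.Good (InC Φ) :=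
  Pool.Agent.H87.Fpc.good_inC h.1 (Pool.Agent.H87.Fpc.simple_of_factor h.2)

/-- **Lifting of isomorphisms of Galois groups.**
1. Let `L/K` be a Galois extension of arbitrary fields and `M` a maximal pro-`C` extension of `L`.
   Then `M/K` is a Galois extension. Maximal pro-`C` extensions `M` of `L` exist.
2. The condition `IsSmallFor C P` holds if the compact group `P` has a dense finitely generated
   subgroup (in particular if `P` is finite), or only finitely many open subgroups of each index, or
   if all quotients of `P` by open normal subgroups are solvable and no group in `Φ` is commutative.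
3. Let `K`, `K'` be as above, of characteristics `p`, `p'`, and let `L/K`, `L'/K'` be Galois
   extensions, `IsSmallFor C (Gal(L/K))`. Then every isomorphism of the topological groups
   `Gal(L/K)`, `Gal(L'/K')` lifts to `Gal(M/K)`, `Gal(M'/K')`. -/
theorem result :
    ∀ (p p' : ℕ) [Fact p.Prime] [Fact p'.Prime] (Φ : ∀ (T : Type) [Group T], Prop),
      ClassIn p Φ → ClassIn p' Φ →
      (∀ (K L : Type) [Field K] [Field L] [Algebra K L] [IsGalois K L],
        ∃ (M : Type) (_ : Field M) (_ : Algebra K M) (_ : Algebra L M) (_ : IsScalarTower K L M),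
          IsMaxProC (InC Φ) L M ∧ IsGalois K M) ∧
      (∀ (P : Type) [Group P] [TopologicalSpace P] [IsTopologicalGroup P] [CompactSpace P],
        ((∃ s : Set P, s.Finite ∧ Dense ((Subgroup.closure s : Subgroup P) : Set P)) →
          IsSmall P) ∧
        (IsSmall P → IsSmallFor (InC Φ) P) ∧
        ((∀ (T : Type) [Group T], Φ T → ∃ a b : T, a * b ≠ b * a) →
          (∀ (U : Subgroup P) [U.Normal], IsOpen (U : Set P) → Group.IsSolvable (P ⧸ U)) →
          IsSmallFor (InC Φ) P)) ∧
      ∀ (K L M K' L' M' : Type) [Field K] [Field L] [Field M] [Algebra K L] [Algebra K M]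
        [Algebra L M] [IsScalarTower K L M] [IsGalois K L] [Field K'] [Field L'] [Field M']
        [Algebra K' L'] [Algebra K' M'] [Algebra L' M'] [IsScalarTower K' L' M']
        [IsGalois K' L'], FieldIn p K → FieldIn p' K' → IsSmallFor (InC Φ) (L ≃ₐ[K] L) →
        IsMaxProC (InC Φ) L M → IsMaxProC (InC Φ) L' M' →
        ∀ φ : (L ≃ₐ[K] L) ≃ₜ* (L' ≃ₐ[K'] L'), Lifts M M' φ := by
  intro p p' _ _ Φ hΦ hΦ'
  have hC := good_of hΦ
  refine ⟨?_, ?_, ?_⟩
  · intro K L _ _ _ _
    obtain ⟨M, i1, i2, i3, i4, h⟩ := Pool.Agent.H87.Fpc.exists_maxR hC K L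
    exact ⟨M, i1, i2, i3, i4, h, Pool.Agent.H87.Fpc.galois_of_max hC h⟩
  · intro P _ _ _ _
    refine ⟨?_, fun h => h.smallFor (InC Φ), fun h1 h2 => ?_⟩
    · rintro ⟨s, hs, hd⟩
      exact Pool.Agent.H87.Fpc.small_of_fg P s hs hd
    · refine Pool.Agent.H87.Fpc.smallFor_of_solvable (InC Φ) ?_ h2
      intro A _ hA hs
      exact Pool.Agent.H87.Fpc.subsingleton_of_solvable (Φ := Φ)
        (fun T _ hT => ⟨Pool.Agent.H87.Fpc.simple_of_factor hΦ.2 T hT, h1 T hT⟩) hA.2 hs
  · intro K L M K' L' M' _ _ _ _ _ _ _ _ _ _ _ _ _ _ _ _ hK hK' hP hM hM' φ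
    haveI := hK.1
    haveI := hK'.1
    obtain ⟨h1, h2⟩ := countable_spec hK
    obtain ⟨h1', h2'⟩ := countable_spec hK'
    haveI hG : IsGalois K M := Pool.Agent.H87.Fpc.galois_of_max hC hM
    haveI hG' : IsGalois K' M' := Pool.Agent.H87.Fpc.galois_of_max hC hM'
    haveI : T2Space (M ≃ₐ[K] M) := krullTopology_t2
    haveI : T2Space (M' ≃ₐ[K'] M') := krullTopology_t2
    haveI : T2Space (L' ≃ₐ[K'] L') := krullTopology_t2
    have hF := Pool.Agent.H87.Fpc.pcR_gal hC hM hP (fun N E _ _ _ _ _ α hE hα hk =>
      Pool.Agent.H87.Fpc.solR hΦ.2 K h2 N E α hE hα hk) φ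
    have hF' := Pool.Agent.H87.Fpc.pcR_gal hC hM' (hP.congr hC φ) (fun N E _ _ _ _ _ α hE hα hk =>
      Pool.Agent.H87.Fpc.solR hΦ'.2 K' h2' N E α hE hα hk)
      (ContinuousMulEquiv.refl (L' ≃ₐ[K'] L'))
    obtain ⟨Ψ, hΨ⟩ := Pool.Agent.H87.Fpc.exists_isoR (fun A B _ _ f h3 h4 h5 => hC.sub A B f h3 h4 h5)
      hF hF'
    refine ⟨Ψ, fun σ τ hστ => ?_⟩
    have h3 : σ.restrictNormal L = τ := by
      apply AlgEquiv.ext
      intro x
      apply (algebraMap L M).injective
      rw [AlgEquiv.restrictNormal_commutes]
      exact hστ x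
    have h4 : (Ψ σ).restrictNormal L' = φ (σ.restrictNormal L) := hΨ σ
    intro x
    rw [← h3, ← h4]
    exact ((Ψ σ).restrictNormal_commutes L' x).symm

end Pool.Agent.Results.MP_7f581e_nt.LiftIsomorphisms
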