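import Mathlib
import Pool.Agent.H87.Fpc.ProMain

/-!
# Finite and infinite embedding problems over `F_q(X)` and over its small extensions

Let `Φ` be a class of finite simple groups, closed under isomorphism, all of which satisfy `FactorL p`
(file `Pool/Agent/K7/H53/LD/Defs.lean` of the library; for example, let `Φ` be any set of alternating
groups `A_n`, `n ≥ 5`, `n ≠ 6`), and let `C` be the class `InC Φ` of all finite groups all of whose
composition factors belong to `Φ`. Call a profinite group `P` small if, for every open normal subgroup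
`V` of `P`, only finitely many open normal subgroups `U ≤ V` of a given index have `V / U` in `C`. This
holds if `P` is topologically finitely generated (for example, if it is finite), or if no finite
quotient of `P` has a composition factor in `Φ`; so, if no group in `Φ` is commutative, it holds for
all prosolvable groups.

Let `K` be a Hilbertian field of characteristic `p`, or `F_q(X)`, and let `L` be an algebraic extension
of `K`, Galois or not, that is contained in a Galois extension of `K` with small group: for example
`L = K`, or a finite separable extension of `K`, or any field between `K` and its maximal prosolvable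
extension (if no group in `Φ` is commutative).

1. Let `N/L` be a finite Galois extension and `E → Gal(N/L)` an epimorphism of finite groups with
   kernel in `C`. Then there is a Galois extension `F ⊇ N` of `L` with an isomorphism `Gal(F/L) → E`
   compatible with the restriction to `N`.
2. Let `K` be countable, `N/L` a finite or infinite Galois extension with small group, and
   `E → Gal(N/L)` a continuous epimorphism of profinite groups, where `E` has a countable base at `1`,
   with a pro-`C` kernel. Then the same is true, with an isomorphism of topological groups.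

In particular (`N = L`) every pro-`C` group with a countable base is the Galois group of a Galois
extension of `L`. For `L = K = F_q(X)` and `N = A(X)`, `A` the algebraic closure of `F_q`, every
extension of the profinite completion of the integers by a pro-`C` group with a countable base is
the Galois group of a Galois extension of `F_q(X)` with field of constants `A`.

The proof of 1 transfers the embedding problem from `L` to `K` (coinduction: the kernel becomes a
power of the given kernel), and finds a solution over `K` that is proper over the larger extension.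
For 2 the solutions are found step by step, each of them has to be proper over the infinite
extension `N`, and the limit must remain an epimorphism. Over `F_q(X)` (1) with `L = K` is the
theorem `LieTypeFactors` of the library, which is used.
-/

set_option autoImplicit false

open Pool.Agent.H87.Fpc (InC IsProC IsoInv IsSmallFor)
open Pool.Agent.K7.H53.LD (FactorL)

namespace Pool.Agent.Results.MP_7f581e_nt.ProfiniteEmbeddingProblems

/-- `K` is Hilbertian (in the form used in frozen statement S03429). -/
def Hilbertian (K : Type) [Field K] : Prop :=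
  ∀ (f : Polynomial (Polynomial K)), f.Monic → Irreducible f →
    (f.map (algebraMap (Polynomial K) (FractionRing (Polynomial K)))).Separable →
    ∀ g : Polynomial K, g ≠ 0 →
      ∃ a : K, g.eval a ≠ 0 ∧ Irreducible (f.map (Polynomial.evalRingHom a))

/-- `K` is the field of rational functions in one variable over a finite field. -/
def IsRational (K : Type) [Field K] : Prop :=
  ∃ (κ : Type) (_ : Field κ) (_ : Finite κ) (_ : Algebra (Polynomial κ) K),
    IsFractionRing (Polynomial κ) K

/-- The fields `K` of the theorem: `K` is a field of characteristic `p`, and `K = F_q(X)` or `K` is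
a Hilbertian field. -/
def FieldIn (p : ℕ) (K : Type) [Field K] : Prop :=
  CharP K p ∧ (IsRational K ∨ Hilbertian K)

/-- The classes `Φ` of the theorem: `Φ` is closed under isomorphism, and all groups in `Φ` satisfy
`FactorL p` (so they are finite simple groups). -/
def ClassIn (p : ℕ) [Fact p.Prime] (Φ : ∀ (T : Type) [Group T], Prop) : Prop :=
  IsoInv Φ ∧ ∀ (T : Type) [Group T], Φ T → FactorL p T

/-- No quotient of `P` by an open normal subgroup has a composition factor in `Φ`: these quotients are
finite, and all their composition factors are simple groups which do not belong to `Φ`. -/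
def Avoids (Φ : ∀ (T : Type) [Group T], Prop) (P : Type) [Group P] [TopologicalSpace P] : Prop :=
  ∀ (U : Subgroup P) [U.Normal], IsOpen (U : Set P) →
    InC (fun (T : Type) [Group T] => IsSimpleGroup T ∧ ¬ Φ T) (P ⧸ U)

/-- `L` is contained in a Galois extension `H` of `K` such that, for every open normal subgroup `V`
of `Gal(H/K)`, only finitely many open normal subgroups `U ≤ V` of a given index have `V / U` in
`C`. -/
def SmallIn (C : ∀ (G : Type) [Group G], Prop) (K L : Type) [Field K] [Field L] [Algebra K L] :
    Prop :=
  ∃ (H : Type) (_ : Field H) (_ : Algebra K H) (_ : Algebra L H) (_ : IsScalarTower K L H),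
    IsGalois K H ∧ IsSmallFor C (H ≃ₐ[K] H)

/-- The embedding problem over `L` given by `ε : E → Gal(N/L)` is properly solvable: there are a
Galois extension `F` of `L` which contains `N` and an isomorphism `γ : Gal(F/L) → E` such that every
`σ` in `Gal(F/L)` acts on `N` as `ε (γ σ)`. -/
def ProperlySolvable (L N E : Type) [Field L] [Field N] [Algebra L N] [Group E]
    (ε : E →* (N ≃ₐ[L] N)) : Prop :=
  ∃ (F : Type) (_ : Field F) (_ : Algebra L F) (_ : Algebra N F) (_ : IsScalarTower L N F),
    FiniteDimensional L F ∧ IsGalois L F ∧ ∃ γ : (F ≃ₐ[L] F) ≃* E,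
      ∀ (σ : F ≃ₐ[L] F) (x : N), σ (algebraMap N F x) = algebraMap N F (ε (γ σ) x)

/-- The same for topological groups: `F` is a finite or infinite Galois extension, `γ` is an
isomorphism of topological groups. -/
def TopSolvable (L N E : Type) [Field L] [Field N] [Algebra L N] [Group E] [TopologicalSpace E]
    (ε : E →* (N ≃ₐ[L] N)) : Prop :=
  ∃ (F : Type) (_ : Field F) (_ : Algebra L F) (_ : Algebra N F) (_ : IsScalarTower L N F),
    IsGalois L F ∧ ∃ γ : (F ≃ₐ[L] F) ≃ₜ* E,
      ∀ (σ : F ≃ₐ[L] F) (x : N), σ (algebraMap N F x) = algebraMap N F (ε (γ σ) x)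

theorem spec_of {p : ℕ} {K : Type} [Field K] (h : FieldIn p K) :
    Pool.Agent.TH377.IG.SpecProp K := by
  obtain ⟨-, h | h⟩ := h
  · obtain ⟨κ, i1, i2, i3, i4⟩ := h
    exact Pool.Agent.H87.Fpc.spec_HP K (Pool.Agent.W200.IG.hp_base (κ := κ) K)
  · exact Pool.Agent.TH377.IG.spec_hilb h

theorem good_of {p : ℕ} [Fact p.Prime] {Φ : ∀ (T : Type) [Group T], Prop} (h : ClassIn p Φ) :
    Pool.Agent.H87.Fpc.Good (InC Φ) :=
  Pool.Agent.H87.Fpc.good_inC h.1 (Pool.Agent.H87.Fpc.simple_of_factor h.2)

theorem isoInv_compl {Φ : ∀ (T : Type) [Group T], Prop} (h : IsoInv Φ) :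
    IsoInv (fun (T : Type) [Group T] => IsSimpleGroup T ∧ ¬ Φ T) := by
  rintro T T' _ _ ⟨e⟩ ⟨h1, h2⟩
  exact ⟨e.symm.isSimpleGroup, fun h3 => h2 (h _ _ ⟨e.symm⟩ h3)⟩

theorem small_crit {p : ℕ} [Fact p.Prime] {Φ : ∀ (T : Type) [Group T], Prop} (hΦ : ClassIn p Φ)
    (P : Type) [Group P] [TopologicalSpace P] [IsTopologicalGroup P] [CompactSpace P]
    (h : Avoids Φ P ∨ ((∀ (T : Type) [Group T], Φ T → ∃ a b : T, a * b ≠ b * a) ∧
        ∀ (U : Subgroup P) [U.Normal], IsOpen (U : Set P) → Group.IsSolvable (P ⧸ U)) ∨
      (∃ s : Set P, s.Finite ∧ Dense ((Subgroup.closure s : Subgroup P) : Set P))) :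
    IsSmallFor (InC Φ) P := by
  rcases h with h | ⟨h1, h2⟩ | ⟨s, hs, hd⟩
  · exact Pool.Agent.H87.Fpc.smallFor_of_disjoint (isoInv_compl hΦ.1)
      (Pool.Agent.H87.Fpc.simple_of_factor hΦ.2) (fun T _ hT => hT.1)
      (fun T _ h1 h2 => h2.2 h1) h
  · refine Pool.Agent.H87.Fpc.smallFor_of_solvable (InC Φ) ?_ h2
    intro A _ hA hs
    exact Pool.Agent.H87.Fpc.subsingleton_of_solvable (Φ := Φ)
      (fun T _ hT => ⟨Pool.Agent.H87.Fpc.simple_of_factor hΦ.2 T hT, h1 T hT⟩) hA.2 hs
  · exact (Pool.Agent.H87.Fpc.small_of_fg _ s hs hd).smallFor (InC Φ)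

theorem small_finite (C : ∀ (G : Type) [Group G], Prop) (K L : Type) [Field K] [Field L]
    [Algebra K L] [FiniteDimensional K L] [Algebra.IsSeparable K L] : SmallIn C K L := by
  obtain ⟨H, i1, i2, i3, i4, hH, hf⟩ := Pool.Agent.H87.Fpc.exists_finite_galois K L
  exact ⟨H, i1, i2, i3, i4, hH, Pool.Agent.H87.Fpc.smallFor_of_finite C _⟩

/-- **Embedding problems over small extensions of `F_q(X)`.**
1. A compact group `P` is small if no finite quotient has a composition factor in `Φ`, or if it is
   prosolvable and no group in `Φ` is commutative, or if it has a dense finitely generated subgroup.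
   `SmallIn` holds for all finite separable extensions.
2. Let `K` be a Hilbertian field of characteristic `p`, or `F_q(X)`, and let `L/K` satisfy `SmallIn`.
   All finite embedding problems over `L` with kernel in `C` are properly solvable.
3. Let `K` be countable. All embedding problems `E → Gal(N/L)`, where `Gal(N/L)` is small, `E` is
   profinite with a countable base at `1`, and the kernel is a pro-`C` group, are properly solvable.
4. Let `K` be countable. Every pro-`C` group with a countable base at `1` is the Galois group of a
   Galois extension of `L`. -/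
theorem result :
    ∀ (p : ℕ) [Fact p.Prime] (Φ : ∀ (T : Type) [Group T], Prop), ClassIn p Φ →
      -- criteria
      (∀ (P : Type) [Group P] [TopologicalSpace P] [IsTopologicalGroup P] [CompactSpace P],
        Avoids Φ P ∨
        ((∀ (T : Type) [Group T], Φ T → ∃ a b : T, a * b ≠ b * a) ∧
          ∀ (U : Subgroup P) [U.Normal], IsOpen (U : Set P) → Group.IsSolvable (P ⧸ U)) ∨
        (∃ s : Set P, s.Finite ∧ Dense ((Subgroup.closure s : Subgroup P) : Set P)) →
        IsSmallFor (InC Φ) P) ∧
      (∀ (K L : Type) [Field K] [Field L] [Algebra K L] [FiniteDimensional K L]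
        [Algebra.IsSeparable K L], SmallIn (InC Φ) K L) ∧
      ∀ (K L : Type) [Field K] [Field L] [Algebra K L], FieldIn p K → SmallIn (InC Φ) K L →
        (∀ (N E : Type) [Field N] [Algebra L N] [FiniteDimensional L N] [IsGalois L N] [Group E]
          (ε : E →* (N ≃ₐ[L] N)), Function.Surjective ε → InC Φ ε.ker →
            ProperlySolvable L N E ε) ∧
        (Countable K →
          (∀ (N E : Type) [Field N] [Algebra L N] [IsGalois L N] [Group E] [TopologicalSpace E]
            [IsTopologicalGroup E] [CompactSpace E] [T2Space E] [TotallyDisconnectedSpace E]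
            [FirstCountableTopology E] (ε : E →* (N ≃ₐ[L] N)),
            IsSmallFor (InC Φ) (N ≃ₐ[L] N) → Function.Surjective ε → Continuous ε →
            IsProC (InC Φ) ε.ker → TopSolvable L N E ε) ∧
          ∀ (G : Type) [Group G] [TopologicalSpace G] [FirstCountableTopology G],
            IsProC (InC Φ) G → ∃ (F : Type) (_ : Field F) (_ : Algebra L F), IsGalois L F ∧
              Nonempty ((F ≃ₐ[L] F) ≃ₜ* G)) := by
  intro p _ Φ hΦ
  have hC := good_of hΦ
  refine ⟨fun P _ _ _ _ h => small_crit hΦ P h, fun K L _ _ _ _ _ => small_finite _ K L, ?_⟩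
  intro K L _ _ _ hK hL
  obtain ⟨H, i1, i2, i3, i4, hH, hP⟩ := hL
  haveI := hK.1
  have hspec := spec_of hK
  have hsolK : ∀ (N E : Type) [Field N] [Algebra K N] [FiniteDimensional K N] [IsGalois K N]
      [Group E] (α : E →* (N ≃ₐ[K] N)), Finite E → Function.Surjective α → InC Φ α.ker →
        Pool.Agent.H87.Fpc.Sol K N E α := fun N E _ _ _ _ _ α hE hα hk =>
    Pool.Agent.H87.Fpc.solR hΦ.2 K hspec N E α hE hα hk
  refine ⟨?_, fun hKc => ?_⟩
  · intro N E _ _ _ _ _ α hα hk
    obtain ⟨F, j1, j2, j3, j4, hF1, hF2, γ, hγ⟩ :=
      Pool.Agent.H87.Fpc.sol_sub (H := H) hC hP hsolK N E α hα hk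
    refine ⟨F, j1, j2, j3, j4, hF1, hF2, γ, fun σ x => ?_⟩
    rw [hγ]
    exact (σ.restrictNormal_commutes N x).symm
  · have hmain : ∀ (N E : Type) [Field N] [Algebra L N] [IsGalois L N] [Group E]
        [TopologicalSpace E] [IsTopologicalGroup E] [CompactSpace E] [T2Space E]
        [TotallyDisconnectedSpace E] [FirstCountableTopology E] (ε : E →* (N ≃ₐ[L] N)),
        IsSmallFor (InC Φ) (N ≃ₐ[L] N) → Function.Surjective ε → Continuous ε →
        IsProC (InC Φ) ε.ker → TopSolvable L N E ε := by
      intro N E _ _ _ _ _ _ _ _ _ _ ε hN hs hc hk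
      exact Pool.Agent.H87.Fpc.pro_main (H := H) hC hP hN hsolK ε hs hc hk
    refine ⟨hmain, ?_⟩
    intro G _ _ _ hG
    obtain ⟨g1, g2, g3, g4, g5⟩ := hG
    let ε : G →* (L ≃ₐ[L] L) := 1
    have h1 : Function.Surjective ε := fun σ => ⟨1, by
      apply AlgEquiv.ext
      intro x
      exact (σ.commutes x).symm⟩
    have h2 : Continuous ε := continuous_const
    have hker : ε.ker = ⊤ := MonoidHom.ker_one
    have h3 : IsProC (InC Φ) ε.ker := by
      rw [hker]
      refine ⟨inferInstance, isCompact_iff_compactSpace.1 isCompact_univ, inferInstance,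
        inferInstance, ?_⟩
      intro U hU hUo
      let t : (⊤ : Subgroup G) ≃* G := Subgroup.topEquiv
      have hc : Continuous (fun x : G => (t.symm x : (⊤ : Subgroup G))) :=
        Continuous.subtype_mk continuous_id _
      have hV : (U.comap t.symm.toMonoidHom).Normal := inferInstance
      have h4 := g5 (U.comap t.symm.toMonoidHom) (hUo.preimage hc)
      have h5 : ∀ x : G, (QuotientGroup.mk' (U.comap t.symm.toMonoidHom)) x = 1 →
          ((QuotientGroup.mk' U).comp t.symm.toMonoidHom) x = 1 := by
        intro x hx
        rw [QuotientGroup.mk'_apply, QuotientGroup.eq_one_iff] at hx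
        change (QuotientGroup.mk' U) (t.symm x) = 1
        rw [QuotientGroup.mk'_apply, QuotientGroup.eq_one_iff]
        exact hx
      obtain ⟨f, hf⟩ := Pool.Agent.H87.Fpc.exists_fac
        (QuotientGroup.mk' (U.comap t.symm.toMonoidHom)) (QuotientGroup.mk'_surjective _)
        ((QuotientGroup.mk' U).comp t.symm.toMonoidHom) h5
      refine hC.quo _ _ f h4 ?_
      intro y
      obtain ⟨x, rfl⟩ := QuotientGroup.mk'_surjective U y
      refine ⟨QuotientGroup.mk' _ (t x), ?_⟩
      rw [hf]
      change (QuotientGroup.mk' U) (t.symm (t x)) = _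
      rw [t.symm_apply_apply]
    have h6 : IsSmallFor (InC Φ) (L ≃ₐ[L] L) :=
      Pool.Agent.H87.Fpc.smallFor_of_finite (InC Φ) (L ≃ₐ[L] L)
    obtain ⟨F, j1, j2, j3, j4, hF, γ, -⟩ := hmain L G ε h6 h1 h2 h3
    exact ⟨F, j1, j2, hF, ⟨γ⟩⟩

end Pool.Agent.Results.MP_7f581e_nt.ProfiniteEmbeddingProblems
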