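import Mathlib
import Pool.Agent.H87.Fpc.SubMain

/-!
# The maximal pro-`C` quotients of the absolute Galois groups of `F_q(X)` and of its small extensions

Let `Φ` be a class of finite simple groups, closed under isomorphism, all of which satisfy `FactorL p`
(file `Pool/Agent/K7/H53/LD/Defs.lean` of the library; for example, let `Φ` be any set of alternating
groups `A_n`, `n ≥ 5`, `n ≠ 6`), and let `C` be the class `InC Φ` of all finite groups all of whose
composition factors belong to `Φ`. Let `K` be a countable Hilbertian field of characteristic `p`, or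
`F_q(X)`. Let `L` be an algebraic extension of `K` that is contained in a Galois extension `H` of `K`
(`L/K` need not be Galois) such that, for every open normal subgroup `V` of `Gal(H/K)`, only finitely
many open normal subgroups `U ≤ V` of a given index have `V / U` in `C`. For example:

* `L = K`, or `L` is any finite separable extension of `K` (for `K = F_q(X)`: any global function
  field);
* no finite quotient of `Gal(H/K)` by an open normal subgroup has a composition factor in `Φ`; so, if
  no group in `Φ` is commutative, `L` can be any field between `K` and its maximal prosolvable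
  extension, and even any field between `K` and the compositum of all finite Galois extensions of
  `K` without composition factors in `Φ`;
* `Gal(H/K)` is topologically finitely generated.

Then the Galois group of the maximal pro-`C` extension of `L` is the free pro-`C` group of countable
rank. In particular these groups are all isomorphic, also in different characteristics.

The proof transfers the embedding problems for `L` to `K` (coinduction: the kernel becomes a power of
the kernel of the given problem) and finds solutions over `K` that are proper over `H`; embedding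
problems over `K` with kernels in `C` have proper solutions (theorem `LieTypeFactors` of the
library). Then Iwasawa's criterion is used.
-/

set_option autoImplicit false

open Pool.Agent.H87.Fpc (InC IsMaxProC IsFreeProC IsoInv IsSmallFor)
open Pool.Agent.K7.H53.LD (FactorL)
open Pool.Agent.K7.H53.MA (IsAlt)

namespace Pool.Agent.Results.MP_7f581e_nt.SmallExtensions

/-- `K` is Hilbertian (in the form used in frozen statement S03429). -/
def Hilbertian (K : Type) [Field K] : Prop :=
  ∀ (f : Polynomial (Polynomial K)), f.Monic → Irreducible f →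
    (f.map (algebraMap (Polynomial K) (FractionRing (Polynomial K)))).Separable →
    ∀ g : Polynomial K, g ≠ 0 →
      ∃ a : K, g.eval a ≠ 0 ∧ Irreducible (f.map (Polynomial.evalRingHom a))

/-- `K` is the field of rational functions in one variable over a finite field. -/
def IsRational (K : Type) [Field K] : Prop :=
  ∃ (κ : Type) (_ : Field κ) (_ : Finite κ) (_ : Algebra (Polynomial κ) K),
    IsFractionRing (Polynomial κ) K

/-- The fields `K` of the theorem: `K` is a field of characteristic `p`, and `K = F_q(X)` or `K` is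
a countable Hilbertian field. -/
def FieldIn (p : ℕ) (K : Type) [Field K] : Prop :=
  CharP K p ∧ (IsRational K ∨ (Countable K ∧ Hilbertian K))

/-- The classes `Φ` of the theorem: `Φ` is closed under isomorphism, and all groups in `Φ` satisfy
`FactorL p` (so they are finite simple groups). -/
def ClassIn (p : ℕ) [Fact p.Prime] (Φ : ∀ (T : Type) [Group T], Prop) : Prop :=
  IsoInv Φ ∧ ∀ (T : Type) [Group T], Φ T → FactorL p T

/-- No quotient of `P` by an open normal subgroup has a composition factor in `Φ`: these quotients are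
finite, and all their composition factors are simple groups which do not belong to `Φ`. -/
def Avoids (Φ : ∀ (T : Type) [Group T], Prop) (P : Type) [Group P] [TopologicalSpace P] : Prop :=
  ∀ (U : Subgroup P) [U.Normal], IsOpen (U : Set P) →
    InC (fun (T : Type) [Group T] => IsSimpleGroup T ∧ ¬ Φ T) (P ⧸ U)

/-- `L` is contained in a Galois extension `H` of `K` such that, for every open normal subgroup `V`
of `Gal(H/K)`, only finitely many open normal subgroups `U ≤ V` of a given index have `V / U` in
`C`. -/
def SmallIn (C : ∀ (G : Type) [Group G], Prop) (K L : Type) [Field K] [Field L] [Algebra K L] :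
    Prop :=
  ∃ (H : Type) (_ : Field H) (_ : Algebra K H) (_ : Algebra L H) (_ : IsScalarTower K L H),
    IsGalois K H ∧ IsSmallFor C (H ≃ₐ[K] H)

theorem countable_spec {p : ℕ} {K : Type} [Field K] (h : FieldIn p K) :
    Countable K ∧ Pool.Agent.TH377.IG.SpecProp K := by
  obtain ⟨-, h | ⟨h1, h2⟩⟩ := h
  · obtain ⟨κ, i1, i2, i3, i4⟩ := h
    exact ⟨Pool.Agent.H87.Fpc.countable_of_frac κ K,
      Pool.Agent.H87.Fpc.spec_HP K (Pool.Agent.W200.IG.hp_base (κ := κ) K)⟩
  · exact ⟨h1, Pool.Agent.TH377.IG.spec_hilb h2⟩

theorem good_of {p : ℕ} [Fact p.Prime] {Φ : ∀ (T : Type) [Group T], Prop} (h : ClassIn p Φ) :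
    Pool.Agent.H87.Fpc.Good (InC Φ) :=
  Pool.Agent.H87.Fpc.good_inC h.1 (Pool.Agent.H87.Fpc.simple_of_factor h.2)

theorem isoInv_compl {Φ : ∀ (T : Type) [Group T], Prop} (h : IsoInv Φ) :
    IsoInv (fun (T : Type) [Group T] => IsSimpleGroup T ∧ ¬ Φ T) := by
  rintro T T' _ _ ⟨e⟩ ⟨h1, h2⟩
  exact ⟨e.symm.isSimpleGroup, fun h3 => h2 (h _ _ ⟨e.symm⟩ h3)⟩

theorem small_crit {p : ℕ} [Fact p.Prime] {Φ : ∀ (T : Type) [Group T], Prop} (hΦ : ClassIn p Φ)
    (P : Type) [Group P] [TopologicalSpace P] [IsTopologicalGroup P] [CompactSpace P]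
    (h : Avoids Φ P ∨ ((∀ (T : Type) [Group T], Φ T → ∃ a b : T, a * b ≠ b * a) ∧
        ∀ (U : Subgroup P) [U.Normal], IsOpen (U : Set P) → Group.IsSolvable (P ⧸ U)) ∨
      (∃ s : Set P, s.Finite ∧ Dense ((Subgroup.closure s : Subgroup P) : Set P))) :
    IsSmallFor (InC Φ) P := by
  rcases h with h | ⟨h1, h2⟩ | ⟨s, hs, hd⟩
  · exact Pool.Agent.H87.Fpc.smallFor_of_disjoint (isoInv_compl hΦ.1)
      (Pool.Agent.H87.Fpc.simple_of_factor hΦ.2) (fun T _ hT => hT.1)
      (fun T _ h1 h2 => h2.2 h1) h
  · refine Pool.Agent.H87.Fpc.smallFor_of_solvable (InC Φ) ?_ h2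
    intro A _ hA hs
    exact Pool.Agent.H87.Fpc.subsingleton_of_solvable (Φ := Φ)
      (fun T _ hT => ⟨Pool.Agent.H87.Fpc.simple_of_factor hΦ.2 T hT, h1 T hT⟩) hA.2 hs
  · exact (Pool.Agent.H87.Fpc.small_of_fg _ s hs hd).smallFor (InC Φ)

theorem small_finite (C : ∀ (G : Type) [Group G], Prop) (K L : Type) [Field K] [Field L]
    [Algebra K L] [FiniteDimensional K L] [Algebra.IsSeparable K L] : SmallIn C K L := by
  obtain ⟨H, i1, i2, i3, i4, hH, hf⟩ := Pool.Agent.H87.Fpc.exists_finite_galois K L
  exact ⟨H, i1, i2, i3, i4, hH, Pool.Agent.H87.Fpc.smallFor_of_finite C _⟩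

theorem pc_of {p : ℕ} [Fact p.Prime] {Φ : ∀ (T : Type) [Group T], Prop} (hΦ : ClassIn p Φ)
    {K L M : Type} [Field K] [Field L] [Field M] [Algebra K L] [Algebra L M] (hK : FieldIn p K)
    (hL : SmallIn (InC Φ) K L) (hM : IsMaxProC (InC Φ) L M) :
    Pool.Agent.H87.Fpc.Pc (InC Φ) (Pool.Agent.H87.Fpc.ON (M ≃ₐ[L] M)) := by
  obtain ⟨H, i1, i2, i3, i4, hH, hP⟩ := hL
  haveI := hK.1
  obtain ⟨h1, h2⟩ := countable_spec hK
  exact Pool.Agent.H87.Fpc.pc_sub (H := H) (good_of hΦ) hP
    (fun N E _ _ _ _ _ α hE hα hk => Pool.Agent.H87.Fpc.solR hΦ.2 K h2 N E α hE hα hk) hM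

/-- **Maximal pro-`C` extensions of small extensions of `F_q(X)`.**
1. The fields `F_q(X)` belong to the fields `K` of the theorem; the class of the alternating groups
   `A_n`, `n ≥ 5`, `n ≠ 6`, is allowed for all `p`, and the largest allowed class is `FactorL p`.
2. The condition `IsSmallFor` on `Gal(H/K)` is satisfied if no finite quotient has a composition factor
   in `Φ`, or if the group is prosolvable and no group in `Φ` is commutative, or if it has a dense
   finitely generated subgroup. `SmallIn` holds for all finite separable extensions.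
3. Every field `L` has a maximal pro-`C` extension `M`, and `Gal(M/L)` is the free pro-`C` group of
   countable rank if `L` is an extension of `K` with `SmallIn`.
4. Any two such groups `Gal(M/L)`, `Gal(M'/L')` are isomorphic as topological groups, also if the
   characteristics `p`, `p'` are different and `Φ` is allowed for both. -/
theorem result :
    ((∀ (p : ℕ) [Fact p.Prime] (κ : Type) [Field κ] [Finite κ] [CharP κ p],
      FieldIn p (RatFunc κ)) ∧
    (∀ (p : ℕ) [Fact p.Prime], ClassIn p (fun T _ => IsAlt T) ∧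
      ClassIn p (fun T _ => FactorL p T))) ∧
    ∀ (p : ℕ) [Fact p.Prime] (Φ : ∀ (T : Type) [Group T], Prop), ClassIn p Φ →
      -- criteria
      (∀ (P : Type) [Group P] [TopologicalSpace P] [IsTopologicalGroup P] [CompactSpace P],
        Avoids Φ P ∨
        ((∀ (T : Type) [Group T], Φ T → ∃ a b : T, a * b ≠ b * a) ∧
          ∀ (U : Subgroup P) [U.Normal], IsOpen (U : Set P) → Group.IsSolvable (P ⧸ U)) ∨
        (∃ s : Set P, s.Finite ∧ Dense ((Subgroup.closure s : Subgroup P) : Set P)) →
        IsSmallFor (InC Φ) P) ∧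
      (∀ (K L : Type) [Field K] [Field L] [Algebra K L] [FiniteDimensional K L]
        [Algebra.IsSeparable K L], SmallIn (InC Φ) K L) ∧
      (∀ (L : Type) [Field L], ∃ (M : Type) (_ : Field M) (_ : Algebra L M),
        IsMaxProC (InC Φ) L M) ∧
      (∀ (K L M : Type) [Field K] [Field L] [Field M] [Algebra K L] [Algebra L M],
        FieldIn p K → SmallIn (InC Φ) K L → IsMaxProC (InC Φ) L M →
          IsFreeProC (InC Φ) (M ≃ₐ[L] M)) ∧
      ∀ (p' : ℕ) [Fact p'.Prime], ClassIn p' Φ →
        ∀ (K L M K' L' M' : Type) [Field K] [Field L] [Field M] [Algebra K L] [Algebra L M]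
          [Field K'] [Field L'] [Field M'] [Algebra K' L'] [Algebra L' M'],
          FieldIn p K → FieldIn p' K' → SmallIn (InC Φ) K L → SmallIn (InC Φ) K' L' →
          IsMaxProC (InC Φ) L M → IsMaxProC (InC Φ) L' M' →
            Nonempty ((M ≃ₐ[L] M) ≃ₜ* (M' ≃ₐ[L'] M')) := by
  refine ⟨⟨?_, ?_⟩, ?_⟩
  · intro p _ κ _ _ _
    exact ⟨Pool.Agent.Y60.DC.charP_ratFunc κ p,
      Or.inl ⟨κ, inferInstance, inferInstance, inferInstance, inferInstance⟩⟩
  · intro p _
    refine ⟨⟨fun T T' _ _ e h => ?_, fun T _ h => Or.inl (Or.inl h)⟩,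
      fun T T' _ _ e h => ?_, fun T _ h => h⟩
    · obtain ⟨e⟩ := e
      exact Pool.Agent.H87.Fpc.isAlt_iso e h
    · obtain ⟨e⟩ := e
      exact Pool.Agent.H87.Fpc.factorL_iso e h
  · intro p _ Φ hΦ
    refine ⟨fun P _ _ _ _ h => small_crit hΦ P h, fun K L _ _ _ _ _ => small_finite _ K L,
      fun L _ => Pool.Agent.H87.Fpc.exists_max (good_of hΦ) L, ?_, ?_⟩
    · intro K L M _ _ _ _ _ hK hL hM
      haveI := hM.1
      haveI : T2Space (M ≃ₐ[L] M) := krullTopology_t2
      exact Pool.Agent.H87.Fpc.free_of_pc (good_of hΦ) (pc_of hΦ hK hL hM)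
    · intro p' _ hΦ' K L M K' L' M' _ _ _ _ _ _ _ _ _ _ hK hK' hL hL' hM hM'
      haveI := hM.1
      haveI := hM'.1
      haveI : T2Space (M ≃ₐ[L] M) := krullTopology_t2
      haveI : T2Space (M' ≃ₐ[L'] M') := krullTopology_t2
      exact Pool.Agent.H87.Fpc.exists_iso (pc_of hΦ hK hL hM) (pc_of hΦ' hK' hL' hM')

end Pool.Agent.Results.MP_7f581e_nt.SmallExtensions
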